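import Mathlib
import Pool.Agent.Q96.FockMeanP

/-!
# Lipschitz characterization of the Fock spaces by the induced distance
-/

set_option autoImplicit false

open MeasureTheory Set Filter Topology ENNReal Q96.FockMean

namespace Pool.Agent.Results.MP_09e892_an.FockLipschitz

variable {n : ℕ}

/-- the Gaussian weight -/
noncomputable def wt (α : ℝ) (s : E n) : ℝ := Real.exp (-(α / 2) * ‖s‖ ^ 2)

/-- the induced distance -/
noncomputable def dist (α : ℝ) (z w : E n) : ℝ :=
  (α / (2 * Real.pi)) ^ n * ∫ u : E n, ‖Complex.exp (α * (inner ℂ u z)) - Complex.exp (α * (inner ℂ u w))‖ *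
    wt α u

/-- the Fock space `F^p_α` -/
def Fock (α : ℝ) (p : ℝ≥0∞) (f : E n → ℂ) : Prop :=
  Differentiable ℂ f ∧ MemLp (fun z => f z * (wt α z : ℂ)) p volume

lemma wt_pos (α : ℝ) (s : E n) : 0 < wt α s := Real.exp_pos _

lemma continuous_wt (α : ℝ) : Continuous (wt α : E n → ℝ) := by
  unfold wt; fun_prop

lemma real_inner_eq (u z : E n) : (inner ℝ u z : ℝ) = ((inner ℂ u z) : ℂ).re := by
  simp [PiLp.inner_apply]

/-- exponential functions are integrable against the weight -/
lemma integrable_exp {α : ℝ} (hα : 0 < α) (z : E n) :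
    Integrable fun u : E n => ‖Complex.exp (α * (inner ℂ u z))‖ * wt α u := by
  have h1 := (GaussianFourier.integrable_cexp_neg_mul_sq_norm_add (V := E n) (b := (α / 2 : ℂ))
    (by simpa using hα) (α : ℂ) z).norm
  refine h1.congr (Eventually.of_forall fun u => ?_)
  simp only
  rw [Complex.norm_exp, Complex.norm_exp, wt, ← Real.exp_add]
  congr 1
  have h2 : (inner ℝ z u : ℝ) = ((inner ℂ u z) : ℂ).re := by
    rw [real_inner_comm]; exact real_inner_eq u z
  rw [h2]
  have h3 : ((-(α / 2 : ℂ) * (‖u‖ : ℂ) ^ 2).re) = -(α / 2) * ‖u‖ ^ 2 := by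
    have : (-(α / 2 : ℂ) * (‖u‖ : ℂ) ^ 2) = ((-(α / 2) * ‖u‖ ^ 2 : ℝ) : ℂ) := by push_cast; ring
    rw [this, Complex.ofReal_re]
  rw [Complex.add_re, h3, Complex.re_ofReal_mul, Complex.re_ofReal_mul, Complex.ofReal_re]
  ring

/-- the localized distance -/
noncomputable def D (α : ℝ) (c : ℂ) (h : E n) : ℝ :=
  (α / (2 * Real.pi)) ^ n * ∫ s : E n, ‖1 - Complex.exp (c + α * (inner ℂ s h))‖ * wt α s

lemma integrable_D {α : ℝ} (hα : 0 < α) (c : ℂ) (h : E n) :
    Integrable fun s : E n => ‖1 - Complex.exp (c + α * (inner ℂ s h))‖ * wt α s := by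
  have h0 := integrable_exp hα (0 : E n)
  have h1 := (integrable_exp hα h).const_mul ‖Complex.exp c‖
  refine (h0.add h1).mono' ?_ (Eventually.of_forall fun s => ?_)
  · apply Continuous.aestronglyMeasurable
    apply Continuous.mul _ (continuous_wt α)
    fun_prop
  · simp only [Pi.add_apply]
    rw [Real.norm_of_nonneg (mul_nonneg (norm_nonneg _) (wt_pos α s).le), ← mul_assoc, ← add_mul]
    apply mul_le_mul_of_nonneg_right _ (wt_pos α s).le
    refine (norm_sub_le _ _).trans (le_of_eq ?_)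
    rw [Complex.exp_add, norm_mul]
    simp

lemma dist_comm (α : ℝ) (z w : E n) : dist α z w = dist α w z := by
  unfold dist
  congr 1
  apply integral_congr_ae
  exact Eventually.of_forall fun u => by simp only; rw [norm_sub_rev]

/-- the change of variables -/
lemma dist_add {α : ℝ} (z h : E n) :
    dist α z (z + h) = Real.exp ((α / 2) * ‖z‖ ^ 2) * D α (α * (inner ℂ z h)) h := by
  unfold dist D
  rw [← integral_add_left_eq_self (fun u : E n => ‖Complex.exp (α * (inner ℂ u z)) -
    Complex.exp (α * (inner ℂ u (z + h)))‖ * wt α u) z, mul_left_comm]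
  congr 1
  rw [← MeasureTheory.integral_const_mul]
  apply integral_congr_ae
  refine Eventually.of_forall fun s => ?_
  simp only
  have h1 : Complex.exp (α * (inner ℂ (z + s) z)) - Complex.exp (α * (inner ℂ (z + s) (z + h))) =
      Complex.exp (α * (inner ℂ (z + s) z)) * (1 - Complex.exp (α * (inner ℂ z h) + α * (inner ℂ s h))) := by
    rw [mul_sub, mul_one, ← Complex.exp_add]
    congr 2
    rw [inner_add_right (z + s), inner_add_left z s h]
    ring
  rw [h1, norm_mul, Complex.norm_exp]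
  have h2 : Real.exp ((α * (inner ℂ (z + s) z)).re) * wt α (z + s) =
      Real.exp ((α / 2) * ‖z‖ ^ 2) * wt α s := by
    unfold wt
    rw [← Real.exp_add, ← Real.exp_add]
    congr 1
    have h3 : ‖z + s‖ ^ 2 = ‖z‖ ^ 2 + 2 * ((inner ℂ z s) : ℂ).re + ‖s‖ ^ 2 :=
      norm_add_sq (𝕜 := ℂ) z s
    have h4 : ((α : ℂ) * (inner ℂ (z + s) z)).re = α * (‖z‖ ^ 2 + ((inner ℂ s z) : ℂ).re) := by
      rw [Complex.re_ofReal_mul, inner_add_left, Complex.add_re]
      congr 2
      exact inner_self_eq_norm_sq (𝕜 := ℂ) z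
    have h5 : ((inner ℂ s z) : ℂ).re = ((inner ℂ z s) : ℂ).re := inner_re_symm (𝕜 := ℂ) s z
    rw [h3, h4, h5]
    ring
  calc Real.exp ((α * (inner ℂ (z + s) z)).re) * ‖1 - Complex.exp (α * (inner ℂ z h) + α * (inner ℂ s h))‖ * wt α (z + s)
      = (Real.exp ((α * (inner ℂ (z + s) z)).re) * wt α (z + s)) *
        ‖1 - Complex.exp (α * (inner ℂ z h) + α * (inner ℂ s h))‖ := by ring
    _ = _ := by rw [h2]; ring

lemma lintegral_wt {α : ℝ} (hα : 0 < α) :
    ∫⁻ s : E n, ENNReal.ofReal (wt α s) = ENNReal.ofReal ((2 * Real.pi / α) ^ n) := by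
  have h1 : Integrable (wt α : E n → ℝ) := by
    have := integrable_exp hα (0 : E n)
    simpa using this
  rw [← ofReal_integral_eq_lintegral_ofReal h1 (Eventually.of_forall fun s => (wt_pos α s).le)]
  congr 1
  have hfin : Module.finrank ℝ (E n) = 2 * n := by
    rw [← Module.finrank_mul_finrank ℝ ℂ (E n)]
    simp
  have h2 := GaussianFourier.integral_rexp_neg_mul_sq_norm (V := E n) (b := α / 2) (by positivity)
  unfold wt
  rw [h2, hfin]
  have h3 : ((2 * n : ℕ) : ℝ) / 2 = n := by push_cast; ring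
  rw [h3, Real.rpow_natCast]
  congr 1
  field_simp

/-- lower bounds for `D` from rotation averages -/
lemma D_lower {α : ℝ} (hα : 0 < α) (c : ℂ) (h : E n) (φ : E n → ℝ≥0∞)
    (hφ : ∀ s, ENNReal.ofReal (2 * Real.pi) * φ s ≤ ∫⁻ θ in Ioc 0 (2 * Real.pi),
      ‖1 - Complex.exp ((starRingEnd ℂ) c + α * (circleMap 0 1 θ * (starRingEnd ℂ) (inner ℂ s h)))‖ₑ) :
    ENNReal.ofReal ((α / (2 * Real.pi)) ^ n) * ∫⁻ s, φ s * ENNReal.ofReal (wt α s) ≤
      ENNReal.ofReal (D α c h) := by
  have h1 := rot_avg (fun s : E n => ENNReal.ofReal (wt α s))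
    (continuous_wt α).measurable.ennreal_ofReal (fun a ha x => by
      simp [wt, norm_smul, ha]) (fun s => 1 - Complex.exp (c + α * (inner ℂ s h))) (by fun_prop) φ
    (fun s => by
      refine (hφ s).trans (le_of_eq ?_)
      apply lintegral_congr
      intro θ
      have h2 : ‖1 - Complex.exp (c + α * (inner ℂ (circleMap 0 1 θ • s) h))‖ₑ =
          ‖(starRingEnd ℂ) (1 - Complex.exp (c + α * (inner ℂ (circleMap 0 1 θ • s) h)))‖ₑ := by
        rw [← ofReal_norm, ← ofReal_norm, RCLike.norm_conj]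
      rw [h2]
      congr 1
      rw [map_sub, map_one, ← Complex.exp_conj, map_add, map_mul, inner_smul_left, map_mul,
        Complex.conj_conj, Complex.conj_ofReal])
  unfold D
  rw [ENNReal.ofReal_mul (by positivity), ofReal_integral_eq_lintegral_ofReal (integrable_D hα c h)
    (Eventually.of_forall fun s => mul_nonneg (norm_nonneg _) (wt_pos α s).le)]
  refine mul_le_mul_right (h1.trans (le_of_eq ?_)) _
  apply lintegral_congr
  intro s
  rw [ENNReal.ofReal_mul (norm_nonneg _), ofReal_norm]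

lemma D_lower_one {α : ℝ} (hα : 0 < α) (c : ℂ) (h : E n) : ‖1 - Complex.exp c‖ ≤ D α c h := by
  have hD0 : 0 ≤ D α c h := by
    unfold D
    apply mul_nonneg (by positivity)
    exact integral_nonneg fun s => mul_nonneg (norm_nonneg _) (wt_pos α s).le
  have h1 := D_lower hα c h (fun _ => ‖1 - Complex.exp c‖ₑ) (fun s => by
    have h2 := circle_mean (fun ζ => 1 - Complex.exp ((starRingEnd ℂ) c + α * (ζ *
      (starRingEnd ℂ) (inner ℂ s h)))) (by fun_prop)
    refine le_trans (le_of_eq ?_) h2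
    congr 1
    rw [← ofReal_norm, ← ofReal_norm]
    congr 1
    rw [← RCLike.norm_conj (1 - Complex.exp c), map_sub, map_one, ← Complex.exp_conj]
    simp)
  rw [lintegral_const_mul' _ _ enorm_ne_top, lintegral_wt hα, mul_left_comm,
    ← ENNReal.ofReal_mul (by positivity), ← mul_pow] at h1
  have h3 : α / (2 * Real.pi) * (2 * Real.pi / α) = 1 := by
    have := Real.pi_pos
    field_simp
  rw [h3, one_pow, ENNReal.ofReal_one, mul_one, ← ofReal_norm] at h1
  exact (ENNReal.ofReal_le_ofReal_iff hD0).mp h1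

/-- the constant of the second lower bound -/
lemma exists_const (hn : 1 ≤ n) (α : ℝ) : ∃ C : ℝ, 0 < C ∧ ∀ h : E n,
    ENNReal.ofReal (C * ‖h‖) ≤ ∫⁻ s : E n, ‖((inner ℂ s h) : ℂ)‖ₑ * ENNReal.ofReal (wt α s) := by
  have : Nonempty (Fin n) := ⟨⟨0, hn⟩⟩
  obtain ⟨e, he⟩ : ∃ e : E n, ‖e‖ = 1 := by
    refine ⟨EuclideanSpace.single ⟨0, hn⟩ 1, by simp⟩
  set K : ℝ≥0∞ := ∫⁻ s : E n, ‖(inner ℝ s e : ℝ)‖ₑ * ENNReal.ofReal (wt α s) with hK
  have hK0 : 0 < K := by
    rw [hK, lintegral_pos_iff_support]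
    · have hopen : IsOpen {s : E n | (inner ℝ s e : ℝ) ≠ 0} :=
        (isOpen_ne (x := (0 : ℝ))).preimage (by fun_prop : Continuous fun s : E n =>
          (inner ℝ s e : ℝ))
      have hne : {s : E n | (inner ℝ s e : ℝ) ≠ 0}.Nonempty := ⟨e, by
        simp [he]⟩
      refine lt_of_lt_of_le (hopen.measure_pos volume hne) (measure_mono ?_)
      intro s hs
      rw [Function.mem_support]
      apply mul_ne_zero
      · simpa using hs
      · simpa using wt_pos α s
    · exact (by fun_prop : Continuous fun s : E n => (inner ℝ s e : ℝ)).measurable.enorm.mul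
        (continuous_wt α).measurable.ennreal_ofReal
  obtain ⟨C, hC0, hCK⟩ := ENNReal.lt_iff_exists_real_btwn.mp hK0
  have hCpos : 0 < C := by
    by_contra hcon
    rw [ENNReal.ofReal_of_nonpos (not_lt.mp hcon)] at hCK
    exact absurd hCK.1 (lt_irrefl _)
  refine ⟨C, hCpos, fun h => ?_⟩
  -- the reflection which maps `h` to a multiple of `e`
  set v : E n := ‖h‖ • e with hv
  have hnorm : ‖h‖ = ‖v‖ := by rw [hv, norm_smul, he, mul_one, norm_norm]
  set R := Submodule.reflection (ℝ ∙ (h - v))ᗮ with hR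
  have hRh : R h = v := Submodule.reflection_sub hnorm
  have h1 : ∀ s : E n, ‖(inner ℝ (R s) v : ℝ)‖ₑ * ENNReal.ofReal (wt α (R s)) ≤
      ‖((inner ℂ s h) : ℂ)‖ₑ * ENNReal.ofReal (wt α s) := by
    intro s
    have h2 : wt α (R s) = wt α s := by unfold wt; rw [LinearIsometryEquiv.norm_map]
    rw [h2, ← hRh, LinearIsometryEquiv.inner_map_map]
    gcongr
    rw [← ofReal_norm, ← ofReal_norm]
    apply ENNReal.ofReal_le_ofReal
    rw [real_inner_eq]
    exact Complex.abs_re_le_norm _
  have h4 : ∫⁻ s : E n, ‖(inner ℝ (R s) v : ℝ)‖ₑ * ENNReal.ofReal (wt α (R s)) =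
      ∫⁻ s : E n, ‖(inner ℝ s v : ℝ)‖ₑ * ENNReal.ofReal (wt α s) :=
    R.measurePreserving.lintegral_comp (f := fun s => ‖(inner ℝ s v : ℝ)‖ₑ *
      ENNReal.ofReal (wt α s)) ((by fun_prop : Continuous fun s : E n =>
        (inner ℝ s v : ℝ)).measurable.enorm.mul (continuous_wt α).measurable.ennreal_ofReal)
  have h5 : ∫⁻ s : E n, ‖(inner ℝ s v : ℝ)‖ₑ * ENNReal.ofReal (wt α s) =
      ENNReal.ofReal ‖h‖ * K := by
    rw [hK, ← lintegral_const_mul' _ _ ENNReal.ofReal_ne_top]
    apply lintegral_congr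
    intro s
    rw [hv, real_inner_smul_right, enorm_mul, Real.enorm_of_nonneg (norm_nonneg h), mul_assoc]
  calc ENNReal.ofReal (C * ‖h‖) = ENNReal.ofReal ‖h‖ * ENNReal.ofReal C := by
        rw [mul_comm, ENNReal.ofReal_mul (norm_nonneg _)]
    _ ≤ ENNReal.ofReal ‖h‖ * K := by gcongr; exact hCK.2.le
    _ = _ := by rw [← h5, ← h4]
    _ ≤ _ := lintegral_mono h1

lemma D_lower_two (hn : 1 ≤ n) {α : ℝ} (hα : 0 < α) : ∃ C : ℝ, 0 < C ∧ ∀ (c : ℂ) (h : E n),
    C * (‖Complex.exp c‖ * ‖h‖) ≤ D α c h := by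
  obtain ⟨C, hC, hCh⟩ := exists_const hn α
  refine ⟨(α / (2 * Real.pi)) ^ n * α * C, by positivity, fun c h => ?_⟩
  have hD0 : 0 ≤ D α c h := by
    unfold D
    apply mul_nonneg (by positivity)
    exact integral_nonneg fun s => mul_nonneg (norm_nonneg _) (wt_pos α s).le
  have h1 := D_lower hα c h (fun s => ENNReal.ofReal (α * ‖Complex.exp c‖) * ‖((inner ℂ s h) : ℂ)‖ₑ)
    (fun s => by
      have h2 := circle_deriv (fun ζ => 1 - Complex.exp ((starRingEnd ℂ) c + α * (ζ *
        (starRingEnd ℂ) (inner ℂ s h)))) (by fun_prop)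
      refine le_trans (le_of_eq ?_) h2
      congr 1
      have h3 : HasDerivAt (fun ζ : ℂ => 1 - Complex.exp ((starRingEnd ℂ) c + α * (ζ *
          (starRingEnd ℂ) (inner ℂ s h)))) (-(Complex.exp ((starRingEnd ℂ) c) * (α *
            (starRingEnd ℂ) (inner ℂ s h)))) 0 := by
        have h4 : HasDerivAt (fun ζ : ℂ => (starRingEnd ℂ) c + α * (ζ *
          (starRingEnd ℂ) (inner ℂ s h))) (α * (starRingEnd ℂ) (inner ℂ s h)) 0 := by
          have := (((hasDerivAt_id (0 : ℂ)).mul_const ((starRingEnd ℂ) (inner ℂ s h))).const_mul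
            (α : ℂ)).const_add ((starRingEnd ℂ) c)
          simpa using this
        have := h4.cexp.const_sub 1
        simpa using this
      rw [h3.deriv, ← ofReal_norm, ← ofReal_norm, ← ENNReal.ofReal_mul (by positivity)]
      congr 1
      rw [norm_neg, norm_mul, norm_mul, Complex.exp_conj, RCLike.norm_conj, RCLike.norm_conj,
        Complex.norm_of_nonneg hα.le]
      ring)
  have h2 : ENNReal.ofReal ((α / (2 * Real.pi)) ^ n * α * C * (‖Complex.exp c‖ * ‖h‖)) ≤
      ENNReal.ofReal (D α c h) := by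
    refine le_trans ?_ h1
    have h3 : ∀ s : E n, ENNReal.ofReal (α * ‖Complex.exp c‖) * ‖((inner ℂ s h) : ℂ)‖ₑ *
        ENNReal.ofReal (wt α s) = ENNReal.ofReal (α * ‖Complex.exp c‖) *
          (‖((inner ℂ s h) : ℂ)‖ₑ * ENNReal.ofReal (wt α s)) := fun s => by rw [mul_assoc]
    simp_rw [h3]
    rw [lintegral_const_mul' _ _ ENNReal.ofReal_ne_top]
    calc ENNReal.ofReal ((α / (2 * Real.pi)) ^ n * α * C * (‖Complex.exp c‖ * ‖h‖)) =
        ENNReal.ofReal ((α / (2 * Real.pi)) ^ n) * (ENNReal.ofReal (α * ‖Complex.exp c‖) *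
          ENNReal.ofReal (C * ‖h‖)) := by
          rw [← ENNReal.ofReal_mul (by positivity), ← ENNReal.ofReal_mul (by positivity)]
          congr 1
          ring
      _ ≤ _ := by
          gcongr
          exact hCh h
  exact (ENNReal.ofReal_le_ofReal_iff hD0).mp h2

/-! ### the majorant -/

/-- the weighted modulus -/
noncomputable def Wf (α : ℝ) (f : E n → ℂ) (z : E n) : ℝ := ‖f z‖ * wt α z

lemma Wf_nonneg (α : ℝ) (f : E n → ℂ) (z : E n) : 0 ≤ Wf α f z :=
  mul_nonneg (norm_nonneg _) (wt_pos α z).le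

lemma continuous_Wf (α : ℝ) {f : E n → ℂ} (hf : Continuous f) : Continuous (Wf α f) :=
  hf.norm.mul (continuous_wt α)

/-- the supremum of the weighted modulus over the balls of radius `2` -/
noncomputable def S (α : ℝ) (f : E n → ℂ) (z : E n) : ℝ :=
  sSup ((fun η => Wf α f (z + η)) '' Metric.closedBall 0 2)

lemma continuous_S (α : ℝ) {f : E n → ℂ} (hf : Continuous f) : Continuous (S α f) := by
  apply (isCompact_closedBall (0 : E n) 2).continuous_sSup (f := fun z η => Wf α f (z + η))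
  exact (continuous_Wf α hf).comp (by fun_prop : Continuous fun q : E n × E n => q.1 + q.2)

lemma le_S (α : ℝ) {f : E n → ℂ} (hf : Continuous f) (z : E n) {η : E n} (hη : ‖η‖ ≤ 2) :
    Wf α f (z + η) ≤ S α f z := by
  apply le_csSup
  · exact ((isCompact_closedBall (0 : E n) 2).image
      ((continuous_Wf α hf).comp (by fun_prop : Continuous fun η : E n => z + η))).bddAbove
  · exact ⟨η, by simpa using hη, rfl⟩

lemma S_nonneg (α : ℝ) {f : E n → ℂ} (hf : Continuous f) (z : E n) : 0 ≤ S α f z :=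
  (Wf_nonneg α f _).trans (le_S α hf z (η := 0) (by simp))

lemma S_attained (α : ℝ) {f : E n → ℂ} (hf : Continuous f) (z : E n) :
    ∃ η : E n, ‖η‖ ≤ 2 ∧ S α f z = Wf α f (z + η) := by
  obtain ⟨η, hη, h⟩ := (isCompact_closedBall (0 : E n) 2).exists_sSup_image_eq
    ⟨0, by simp⟩ ((continuous_Wf α hf).comp
      (by fun_prop : Continuous fun η : E n => z + η)).continuousOn
  exact ⟨η, by simpa using hη, h⟩

/-- the translate of `f` by the Weyl operator -/
noncomputable def T (α : ℝ) (f : E n → ℂ) (z η : E n) : ℂ :=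
  f (z + η) * Complex.exp (-(α * (inner ℂ z η)) - (α / 2) * (‖z‖ : ℂ) ^ 2)

lemma differentiable_T (α : ℝ) {f : E n → ℂ} (hf : Differentiable ℂ f) (z : E n) :
    Differentiable ℂ (T α f z) := by
  unfold T
  apply Differentiable.mul
  · exact hf.comp (by fun_prop)
  · apply Differentiable.cexp
    apply Differentiable.sub_const
    apply Differentiable.neg
    apply Differentiable.const_mul
    exact (innerSL ℂ z).differentiable

lemma norm_T (α : ℝ) (f : E n → ℂ) (z η : E n) :
    ‖T α f z η‖ = Wf α f (z + η) * Real.exp ((α / 2) * ‖η‖ ^ 2) := by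
  unfold T Wf wt
  rw [norm_mul, Complex.norm_exp, mul_assoc, ← Real.exp_add]
  congr 2
  have h3 : ‖z + η‖ ^ 2 = ‖z‖ ^ 2 + 2 * ((inner ℂ z η) : ℂ).re + ‖η‖ ^ 2 :=
    norm_add_sq (𝕜 := ℂ) z η
  rw [h3]
  have h4 : ((α / 2 : ℂ) * (‖z‖ : ℂ) ^ 2) = (((α / 2) * ‖z‖ ^ 2 : ℝ) : ℂ) := by push_cast; ring
  rw [h4, Complex.sub_re, Complex.neg_re, Complex.re_ofReal_mul, Complex.ofReal_re]
  ring

lemma T_zero (α : ℝ) (f : E n → ℂ) (z : E n) :
    f z = Complex.exp ((α / 2) * (‖z‖ : ℂ) ^ 2) * T α f z 0 := by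
  unfold T
  rw [add_zero, inner_zero_right, mul_comm, mul_assoc, ← Complex.exp_add]
  simp

lemma T_eq (α : ℝ) (f : E n → ℂ) (z h : E n) :
    f (z + h) = Complex.exp ((α / 2) * (‖z‖ : ℂ) ^ 2) * (Complex.exp (α * (inner ℂ z h)) *
      T α f z h) := by
  unfold T
  have h1 : Complex.exp ((α / 2) * (‖z‖ : ℂ) ^ 2) * (Complex.exp (α * (inner ℂ z h)) *
      (f (z + h) * Complex.exp (-(α * (inner ℂ z h)) - (α / 2) * (‖z‖ : ℂ) ^ 2))) =
      f (z + h) * (Complex.exp ((α / 2) * (‖z‖ : ℂ) ^ 2) * Complex.exp (α * (inner ℂ z h)) *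
        Complex.exp (-(α * (inner ℂ z h)) - (α / 2) * (‖z‖ : ℂ) ^ 2)) := by ring
  rw [h1, ← Complex.exp_add, ← Complex.exp_add]
  have h2 : (α / 2 : ℂ) * (‖z‖ : ℂ) ^ 2 + α * (inner ℂ z h) + (-(α * (inner ℂ z h)) -
      (α / 2) * (‖z‖ : ℂ) ^ 2) = 0 := by ring
  rw [h2, Complex.exp_zero, mul_one]

/-- near the diagonal -/
lemma near {α : ℝ} (hα : 0 < α) {C : ℝ} (hC : 0 < C)
    (hD : ∀ (c : ℂ) (h : E n), C * (‖Complex.exp c‖ * ‖h‖) ≤ D α c h) {f : E n → ℂ}
    (hf : Differentiable ℂ f) (z h : E n) (hh : ‖h‖ ≤ 1) :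
    ‖f z - f (z + h)‖ ≤ dist α z (z + h) * ((1 + Real.exp (2 * α) / C) * S α f z) := by
  set c : ℂ := α * (inner ℂ z h) with hc
  have hS0 := S_nonneg α hf.continuous z
  have hTb : ∀ η : E n, ‖η‖ ≤ 2 → ‖T α f z η‖ ≤ Real.exp (2 * α) * S α f z := by
    intro η hη
    rw [norm_T, mul_comm]
    have h1 : Real.exp ((α / 2) * ‖η‖ ^ 2) ≤ Real.exp (2 * α) := by
      apply Real.exp_le_exp.mpr
      have : ‖η‖ ^ 2 ≤ 2 ^ 2 := pow_le_pow_left₀ (norm_nonneg _) hη 2
      nlinarith
    exact mul_le_mul h1 (le_S α hf.continuous z hη) (Wf_nonneg _ _ _) (Real.exp_pos _).le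
  have hdiff : ‖T α f z h - T α f z 0‖ ≤ (Real.exp (2 * α) * S α f z) * ‖h‖ := by
    have h1 := Complex.dist_le_div_mul_dist_of_mapsTo_ball (f := T α f z) (c := 0) (R₁ := 2)
      (R₂ := 2 * (Real.exp (2 * α) * S α f z)) (z := h) (differentiable_T α hf z).differentiableOn
      (fun η hη => by
        rw [Metric.mem_closedBall, dist_eq_norm_sub]
        have h2 : ‖η‖ ≤ 2 := by
          rw [mem_ball_zero_iff] at hη; exact hη.le
        have h3 := hTb η h2
        have h4 := hTb 0 (by simp)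
        exact (norm_sub_le _ _).trans (by linarith))
      (by rw [mem_ball_zero_iff]; linarith)
    rw [dist_eq_norm_sub, dist_eq_norm_sub, sub_zero] at h1
    refine h1.trans (le_of_eq ?_)
    ring
  have hT0 : ‖T α f z 0‖ ≤ S α f z := by
    rw [norm_T]
    simpa using le_S α hf.continuous z (η := 0) (by simp)
  have h1 : f z - f (z + h) = Complex.exp ((α / 2) * (‖z‖ : ℂ) ^ 2) *
      ((1 - Complex.exp c) * T α f z 0 - Complex.exp c * (T α f z h - T α f z 0)) := by
    rw [T_eq α f z h]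
    conv_lhs => rw [T_zero α f z]
    ring
  have h2 : ‖Complex.exp ((α / 2) * (‖z‖ : ℂ) ^ 2)‖ = Real.exp ((α / 2) * ‖z‖ ^ 2) := by
    rw [Complex.norm_exp]
    congr 1
    have h4 : ((α / 2 : ℂ) * (‖z‖ : ℂ) ^ 2) = (((α / 2) * ‖z‖ ^ 2 : ℝ) : ℂ) := by push_cast; ring
    rw [h4, Complex.ofReal_re]
  have hD1 := D_lower_one hα c h
  have hD2 := hD c h
  rw [dist_add, ← hc, h1, norm_mul, h2, mul_assoc]
  apply mul_le_mul_of_nonneg_left _ (Real.exp_pos _).le
  have hexp := Real.exp_pos (2 * α)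
  calc ‖(1 - Complex.exp c) * T α f z 0 - Complex.exp c * (T α f z h - T α f z 0)‖ ≤
        ‖1 - Complex.exp c‖ * ‖T α f z 0‖ + ‖Complex.exp c‖ * ‖T α f z h - T α f z 0‖ := by
        refine (norm_sub_le _ _).trans (le_of_eq ?_)
        rw [norm_mul, norm_mul]
    _ ≤ D α c h * S α f z + ‖Complex.exp c‖ * ((Real.exp (2 * α) * S α f z) * ‖h‖) := by
        apply add_le_add
        · exact mul_le_mul hD1 hT0 (norm_nonneg _) ((norm_nonneg _).trans hD1)
        · exact mul_le_mul_of_nonneg_left hdiff (norm_nonneg _)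
    _ = D α c h * S α f z + (Real.exp (2 * α) * S α f z / C) *
          (C * (‖Complex.exp c‖ * ‖h‖)) := by
        field_simp
    _ ≤ D α c h * S α f z + (Real.exp (2 * α) * S α f z / C) * D α c h := by
        gcongr
    _ = _ := by ring

/-- away from the diagonal -/
lemma far {α : ℝ} (hα : 0 < α) {C : ℝ} (hC : 0 < C)
    (hD : ∀ (c : ℂ) (h : E n), C * (‖Complex.exp c‖ * ‖h‖) ≤ D α c h) (z w : E n)
    (hh : 1 ≤ ‖w - z‖) :
    Real.exp ((α / 2) * ‖z‖ ^ 2) ≤ (1 + 1 / C) * dist α z w := by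
  obtain ⟨h, rfl⟩ : ∃ h, w = z + h := ⟨w - z, by abel⟩
  rw [add_sub_cancel_left] at hh
  rw [dist_add]
  set c : ℂ := α * (inner ℂ z h) with hc
  have hD1 := D_lower_one hα c h
  have hD2 := hD c h
  have h1 : 1 ≤ (1 + 1 / C) * D α c h := by
    have h2 : 1 - ‖Complex.exp c‖ ≤ ‖1 - Complex.exp c‖ := by
      have := norm_sub_norm_le (1 : ℂ) (Complex.exp c)
      simpa using this
    have h3 : ‖Complex.exp c‖ ≤ ‖Complex.exp c‖ * ‖h‖ := le_mul_of_one_le_right (norm_nonneg _) hh
    have h4 : ‖Complex.exp c‖ ≤ (1 / C) * D α c h := by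
      rw [one_div_mul_eq_div, le_div_iff₀ hC]
      nlinarith
    linarith
  have h5 := Real.exp_pos ((α / 2) * ‖z‖ ^ 2)
  nlinarith

/-! ### the majorant belongs to `L^p` -/

lemma memLp_S (hn : 1 ≤ n) {α : ℝ} (hα : 0 < α) {p : ℝ≥0∞} (hp : 0 < p) {f : E n → ℂ}
    (hf : Fock α p f) : MemLp (S α f) p volume := by
  obtain ⟨hd, hLp⟩ := hf
  have hc := hd.continuous
  have hnorm : ∀ z, ‖f z * (wt α z : ℂ)‖ = Wf α f z := fun z => by
    rw [norm_mul, Complex.norm_of_nonneg (wt_pos α z).le]; rfl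
  rcases eq_or_ne p ∞ with rfl | hptop
  · -- bounded
    obtain ⟨B, hB⟩ : ∃ B : ℝ, ∀ᵐ z ∂(volume : Measure (E n)), Wf α f z ≤ B := by
      refine ⟨(eLpNorm (fun z => f z * (wt α z : ℂ)) ∞ volume).toReal, ?_⟩
      have h1 := hLp.2
      have h2 : ∀ᵐ z ∂(volume : Measure (E n)), ‖f z * (wt α z : ℂ)‖ₑ ≤
          eLpNorm (fun z => f z * (wt α z : ℂ)) ∞ volume := by
        rw [eLpNorm_exponent_top]
        exact ae_le_eLpNormEssSup
      filter_upwards [h2] with z hz
      rw [← hnorm, ← toReal_enorm]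
      exact ENNReal.toReal_mono h1.ne hz
    have hB' : ∀ z, Wf α f z ≤ B := by
      by_contra hcon
      push Not at hcon
      obtain ⟨z, hz⟩ := hcon
      have hopen : IsOpen {z : E n | B < Wf α f z} :=
        isOpen_lt continuous_const (continuous_Wf α hc)
      have h1 := hopen.measure_pos volume ⟨z, hz⟩
      have h2 : volume {z : E n | B < Wf α f z} = 0 := by
        have := ae_iff.mp hB
        simpa using this
      exact h1.ne' h2
    apply memLp_top_of_bound (continuous_S α hc).aestronglyMeasurable B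
    refine Eventually.of_forall fun z => ?_
    rw [Real.norm_of_nonneg (S_nonneg α hc z)]
    obtain ⟨η, _, h⟩ := S_attained α hc z
    rw [h]
    exact hB' _
  · -- finite exponent
    set q := p.toReal with hq
    have hq0 : 0 < q := ENNReal.toReal_pos hp.ne' hptop
    obtain ⟨c, hc0, hsub⟩ := sub_mean_rpow hn hq0
    have hfin : ∫⁻ z, ENNReal.ofReal (Wf α f z ^ q) < ∞ := by
      have := (eLpNorm_lt_top_iff_lintegral_rpow_enorm_lt_top hp.ne' hptop).mp hLp.2
      simp_rw [← hq] at this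
      refine lt_of_eq_of_lt (lintegral_congr fun z => ?_) this
      rw [enorm_rpow _ hq0.le, hnorm]
    -- pointwise bounds
    have hpt : ∀ z, ENNReal.ofReal (c * S α f z ^ q) ≤ ENNReal.ofReal (Real.exp (α / 2) ^ q) *
        ∫⁻ y in Metric.ball z 3, ENNReal.ofReal (Wf α f y ^ q) := by
      intro z
      obtain ⟨η, hη, h⟩ := S_attained α hc z
      have h1 := hsub (T α f (z + η)) (differentiable_T α hd (z + η)) 0
      rw [norm_T] at h1
      simp only [add_zero, norm_zero, ne_eq, OfNat.ofNat_ne_zero, not_false_eq_true, zero_pow,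
        mul_zero, Real.exp_zero, mul_one] at h1
      rw [h]
      refine h1.trans ?_
      calc ∫⁻ y in Metric.ball 0 1, ENNReal.ofReal (‖T α f (z + η) y‖ ^ q) ≤
          ∫⁻ y in Metric.ball (0 : E n) 1, ENNReal.ofReal (Real.exp (α / 2) ^ q) *
            ENNReal.ofReal (Wf α f (z + η + y) ^ q) := by
            apply setLIntegral_mono' measurableSet_ball
            intro y hy
            rw [← ENNReal.ofReal_mul (by positivity)]
            apply ENNReal.ofReal_le_ofReal
            rw [norm_T, mul_comm, Real.mul_rpow (Real.exp_pos _).le (Wf_nonneg _ _ _)]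
            apply mul_le_mul_of_nonneg_right _ (Real.rpow_nonneg (Wf_nonneg _ _ _) _)
            apply Real.rpow_le_rpow (Real.exp_pos _).le _ hq0.le
            apply Real.exp_le_exp.mpr
            rw [mem_ball_zero_iff] at hy
            have : ‖y‖ ^ 2 ≤ 1 ^ 2 := pow_le_pow_left₀ (norm_nonneg _) hy.le 2
            nlinarith
        _ = ENNReal.ofReal (Real.exp (α / 2) ^ q) *
            ∫⁻ y in Metric.ball (z + η) 1, ENNReal.ofReal (Wf α f y ^ q) := by
            rw [lintegral_const_mul' _ _ ENNReal.ofReal_ne_top]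
            congr 1
            rw [← lintegral_indicator measurableSet_ball, ← lintegral_indicator measurableSet_ball,
              ← lintegral_add_left_eq_self ((Metric.ball (z + η) 1).indicator fun y =>
                ENNReal.ofReal (Wf α f y ^ q)) (z + η)]
            apply lintegral_congr
            intro y
            by_cases hy : y ∈ Metric.ball (0 : E n) 1
            · rw [indicator_of_mem hy, indicator_of_mem]
              simpa using hy
            · rw [indicator_of_notMem hy, indicator_of_notMem]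
              simpa using hy
        _ ≤ _ := by
            gcongr
            apply Metric.ball_subset_ball'
            rw [dist_eq_norm_sub, add_sub_cancel_left]
            linarith
    -- integrate
    have hmeasW : Measurable fun y => ENNReal.ofReal (Wf α f y ^ q) := by
      apply Measurable.ennreal_ofReal
      exact ((Real.continuous_rpow_const hq0.le).comp (continuous_Wf α hc)).measurable
    have hint : ∫⁻ z, ∫⁻ y in Metric.ball z 3, ENNReal.ofReal (Wf α f y ^ q) < ∞ := by
      have h1 : ∀ z : E n, ∫⁻ y in Metric.ball z 3, ENNReal.ofReal (Wf α f y ^ q) =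
          ∫⁻ y, (Metric.ball (0 : E n) 3).indicator 1 (y - z) * ENNReal.ofReal (Wf α f y ^ q) := by
        intro z
        rw [← lintegral_indicator measurableSet_ball]
        apply lintegral_congr
        intro y
        by_cases hy : y ∈ Metric.ball z 3
        · rw [indicator_of_mem hy, indicator_of_mem]
          · simp
          · rw [mem_ball_zero_iff]; rwa [Metric.mem_ball, dist_eq_norm_sub] at hy
        · rw [indicator_of_notMem hy, indicator_of_notMem]
          · simp
          · rw [mem_ball_zero_iff]; rwa [Metric.mem_ball, dist_eq_norm_sub] at hy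
      simp_rw [h1]
      rw [lintegral_lintegral_swap]
      · have h2 : ∀ y : E n, ∫⁻ z, (Metric.ball (0 : E n) 3).indicator 1 (y - z) *
            ENNReal.ofReal (Wf α f y ^ q) = volume (Metric.ball (0 : E n) 3) *
              ENNReal.ofReal (Wf α f y ^ q) := by
          intro y
          rw [lintegral_mul_const' _ _ ENNReal.ofReal_ne_top,
            lintegral_sub_left_eq_self (fun z => (Metric.ball (0 : E n) 3).indicator 1 z) y,
            lintegral_indicator_one measurableSet_ball]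
        simp_rw [h2]
        rw [lintegral_const_mul' _ _ measure_ball_lt_top.ne]
        exact ENNReal.mul_lt_top measure_ball_lt_top hfin
      · apply Measurable.aemeasurable
        apply Measurable.mul
        · exact (measurable_one.indicator measurableSet_ball).comp
            (measurable_snd.sub measurable_fst)
        · exact hmeasW.comp measurable_snd
    refine ⟨(continuous_S α hc).aestronglyMeasurable, ?_⟩
    rw [eLpNorm_lt_top_iff_lintegral_rpow_enorm_lt_top hp.ne' hptop, ← hq]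
    have h1 : ∀ z, ENNReal.ofReal c * ‖S α f z‖ₑ ^ q = ENNReal.ofReal (c * S α f z ^ q) := by
      intro z
      rw [Real.enorm_of_nonneg (S_nonneg α hc z), ENNReal.ofReal_rpow_of_nonneg
        (S_nonneg α hc z) hq0.le, ← ENNReal.ofReal_mul hc0.le]
    have h2 : ENNReal.ofReal c * ∫⁻ z, ‖S α f z‖ₑ ^ q < ∞ := by
      rw [← lintegral_const_mul' _ _ ENNReal.ofReal_ne_top]
      simp_rw [h1]
      refine lt_of_le_of_lt (lintegral_mono hpt) ?_
      rw [lintegral_const_mul' _ _ ENNReal.ofReal_ne_top]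
      exact ENNReal.mul_lt_top ENNReal.ofReal_lt_top hint
    by_contra hcon
    rw [not_lt, top_le_iff] at hcon
    rw [hcon, ENNReal.mul_top (by simpa using hc0)] at h2
    exact lt_irrefl _ h2

/-- **Positive answer.** Every function of the Fock space `F^p_α`, `0 < p ≤ ∞`, satisfies the
Lipschitz-type condition for the induced distance. -/
theorem result (n : ℕ) (hn : 1 ≤ n) (α : ℝ) (hα : 0 < α) (p : ℝ≥0∞) (hp : 0 < p)
    (f : E n → ℂ) (hf : Fock α p f) :
    ∃ g : E n → ℝ, Continuous g ∧ (∀ z, 0 ≤ g z) ∧ MemLp g p volume ∧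
      ∀ z w, ‖f z - f w‖ ≤ dist α z w * (g z + g w) := by
  obtain ⟨C, hC, hD⟩ := D_lower_two hn hα
  have hc := hf.1.continuous
  set K : ℝ := (1 + Real.exp (2 * α) / C) + (1 + 1 / C) with hK
  have hexp := Real.exp_pos (2 * α)
  have hK0 : 0 ≤ K := by positivity
  have hdist0 : ∀ z w : E n, 0 ≤ dist α z w := fun z w => by
    unfold dist
    apply mul_nonneg (by positivity)
    exact integral_nonneg fun s => mul_nonneg (norm_nonneg _) (wt_pos α s).le
  refine ⟨fun z => K * S α f z, continuous_const.mul (continuous_S α hc),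
    fun z => mul_nonneg hK0 (S_nonneg α hc z), (memLp_S hn hα hp hf).const_mul K, fun z w => ?_⟩
  have hSz := S_nonneg α hc z
  have hSw := S_nonneg α hc w
  rcases le_total ‖w - z‖ 1 with h | h
  · have h1 := near hα hC hD hf.1 z (w - z) h
    rw [add_sub_cancel] at h1
    refine h1.trans (mul_le_mul_of_nonneg_left ?_ (hdist0 z w))
    have h2 : (1 + Real.exp (2 * α) / C) ≤ K := by
      rw [hK]; have : 0 ≤ 1 + 1 / C := by positivity
      linarith
    have h3 : (1 + Real.exp (2 * α) / C) * S α f z ≤ K * S α f z :=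
      mul_le_mul_of_nonneg_right h2 hSz
    have h4 : 0 ≤ K * S α f w := by positivity
    linarith
  · have h1 := far hα hC hD z w h
    have h2 := far hα hC hD w z (by rwa [norm_sub_rev])
    rw [dist_comm α w z] at h2
    have h3 : ∀ z : E n, ‖f z‖ = Wf α f z * Real.exp ((α / 2) * ‖z‖ ^ 2) := by
      intro z
      unfold Wf wt
      rw [mul_assoc, ← Real.exp_add]
      have : -(α / 2) * ‖z‖ ^ 2 + α / 2 * ‖z‖ ^ 2 = 0 := by ring
      rw [this, Real.exp_zero, mul_one]
    have h4 : ∀ z : E n, Wf α f z ≤ S α f z := fun z => by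
      simpa using le_S α hc z (η := 0) (by simp)
    have h5 : (1 + 1 / C) ≤ K := by
      rw [hK]; have : 0 ≤ 1 + Real.exp (2 * α) / C := by positivity
      linarith
    have hd0 := hdist0 z w
    calc ‖f z - f w‖ ≤ ‖f z‖ + ‖f w‖ := norm_sub_le _ _
      _ = Wf α f z * Real.exp ((α / 2) * ‖z‖ ^ 2) + Wf α f w * Real.exp ((α / 2) * ‖w‖ ^ 2) := by
          rw [h3 z, h3 w]
      _ ≤ S α f z * ((1 + 1 / C) * dist α z w) + S α f w * ((1 + 1 / C) * dist α z w) := by
          apply add_le_add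
          · exact mul_le_mul (h4 z) h1 (Real.exp_pos _).le hSz
          · exact mul_le_mul (h4 w) h2 (Real.exp_pos _).le hSw
      _ ≤ S α f z * (K * dist α z w) + S α f w * (K * dist α z w) := by
          gcongr
      _ = _ := by ring

end Pool.Agent.Results.MP_09e892_an.FockLipschitz
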